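import Mathlib

/-!
# Automata, the groups they generate, words and rays
-/

set_option autoImplicit false

namespace Pool.Agent.V1119.ISO

open Equiv

/-- An automaton is given by its table: it has one row for every state, and the entry of a row at
the place of the letter `x` is the pair (next state, output letter). The states and the letters are
numbered from zero. -/
abbrev Table : Type := List (List (ℕ × ℕ))

/-- `T` is the table of a finite invertible automaton over the alphabet `{0, …, k - 1}`: all rows
have `k` entries, the outputs of a row are different (so that they are a permutation of the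
alphabet), and the entries are states and letters. -/
structure IsAutomaton (k : ℕ) (T : Table) : Prop where
  length_row : ∀ row ∈ T, row.length = k
  nodup : ∀ row ∈ T, (row.map Prod.snd).Nodup
  bound : ∀ row ∈ T, ∀ e ∈ row, e.1 < T.length ∧ e.2 < k

/-- The transition map. -/
def nxt (T : Table) (q x : ℕ) : ℕ := ((T.getD q []).getD x (0, 0)).1

/-- The output map. -/
def out (T : Table) (q x : ℕ) : ℕ := ((T.getD q []).getD x (0, 0)).2

/-- The action of a state on words. -/
def act (T : Table) : ℕ → List ℕ → List ℕ
  | _, [] => []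
  | q, x :: w => out T q x :: act T (nxt T q x) w

/-- The self-similar group `G(T)` generated by the states of the automaton: it consists of
permutations of the set of words over the alphabet. -/
def autGroup (k : ℕ) (T : Table) : Subgroup (Perm (List (Fin k))) :=
  Subgroup.closure {σ | ∃ q < T.length, ∀ w, (σ w).map Fin.val = act T q (w.map Fin.val)}

/-! ### Automata as functions -/

/-- An invertible automaton. -/
structure Mealy (n k : ℕ) where
  nx : Fin n → Fin k → Fin n
  ou : Fin n → Perm (Fin k)

namespace Mealy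

variable {n k : ℕ} (A : Mealy n k)

/-- action on words -/
def f : Fin n → List (Fin k) → List (Fin k)
  | _, [] => []
  | q, x :: w => A.ou q x :: f (A.nx q x) w

/-- inverse action -/
def g : Fin n → List (Fin k) → List (Fin k)
  | _, [] => []
  | q, y :: w => (A.ou q).symm y :: g (A.nx q ((A.ou q).symm y)) w

/-- the permutation of the words -/
def wP (q : Fin n) : Perm (List (Fin k)) where
  toFun := A.f q
  invFun := A.g q
  left_inv w := by
    induction w generalizing q with
    | nil => rfl
    | cons x w ih => simp only [f, g, Equiv.symm_apply_apply, ih]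
  right_inv w := by
    induction w generalizing q with
    | nil => rfl
    | cons x w ih => simp only [f, g, Equiv.apply_symm_apply, ih]

/-- states along a ray -/
def st (q : Fin n) (η : ℕ → Fin k) : ℕ → Fin n
  | 0 => q
  | i + 1 => A.nx (st q η i) (η i)

/-- states along the inverse image -/
def ist (q : Fin n) (ζ : ℕ → Fin k) : ℕ → Fin n
  | 0 => q
  | i + 1 => A.nx (ist q ζ i) ((A.ou (ist q ζ i)).symm (ζ i))

/-- the permutation of the rays -/
def rP (q : Fin n) : Perm (ℕ → Fin k) where
  toFun η := fun i => A.ou (A.st q η i) (η i)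
  invFun ζ := fun i => (A.ou (A.ist q ζ i)).symm (ζ i)
  left_inv η := by
    have h : ∀ i, A.ist q (fun i => A.ou (A.st q η i) (η i)) i = A.st q η i := by
      intro i
      induction i with
      | zero => rfl
      | succ i ih => rw [ist, ih, st, Equiv.symm_apply_apply]
    funext i
    simp only [h, Equiv.symm_apply_apply]
  right_inv ζ := by
    have h : ∀ i, A.st q (fun i => (A.ou (A.ist q ζ i)).symm (ζ i)) i = A.ist q ζ i := by
      intro i
      induction i with
      | zero => rfl
      | succ i ih => rw [st, ih, ist]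
    funext i
    simp only [h, Equiv.apply_symm_apply]

theorem rP_apply (q : Fin n) (η : ℕ → Fin k) (i : ℕ) :
    A.rP q η i = A.ou (A.st q η i) (η i) := rfl

/-- first letters -/
def pre (η : ℕ → Fin k) (m : ℕ) : List (Fin k) := List.ofFn (fun i : Fin m => η i)

theorem pre_succ (η : ℕ → Fin k) (m : ℕ) :
    pre η (m + 1) = η 0 :: pre (fun i => η (i + 1)) m := by
  unfold pre
  rw [List.ofFn_succ]
  rfl

theorem st_shift (q : Fin n) (η : ℕ → Fin k) (i : ℕ) :
    A.st q η (i + 1) = A.st (A.nx q (η 0)) (fun i => η (i + 1)) i := by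
  induction i with
  | zero => rfl
  | succ i ih => rw [st, ih]; rfl

theorem pre_ext {η ζ : ℕ → Fin k} (h : ∀ m, pre η m = pre ζ m) : η = ζ := by
  funext i
  have h1 := h (i + 1)
  unfold pre at h1
  rw [List.ofFn_inj] at h1
  exact congrFun h1 ⟨i, Nat.lt_succ_self i⟩

theorem exists_pre (hk : 0 < k) (w : List (Fin k)) : ∃ η m, pre η m = w := by
  refine ⟨fun i => w.getD i ⟨0, hk⟩, w.length, ?_⟩
  unfold pre
  apply List.ext_getElem
  · simp
  · intro i h1 h2
    simp

/-- a permutation of the rays and a permutation of the words agree -/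
def Rel (σ : Perm (ℕ → Fin k)) (τ : Perm (List (Fin k))) : Prop :=
  ∀ η m, τ (pre η m) = pre (σ η) m

theorem rel_state (q : Fin n) : Rel (A.rP q) (A.wP q) := by
  intro η m
  induction m generalizing q η with
  | zero => rfl
  | succ m ih =>
    rw [pre_succ, pre_succ]
    change A.f q (η 0 :: _) = _
    rw [f]
    have h1 := ih (A.nx q (η 0)) (fun i => η (i + 1))
    change A.f (A.nx q (η 0)) _ = _ at h1
    rw [h1]
    congr 1
    congr 1
    funext i
    rw [rP_apply, rP_apply, st_shift]

theorem Rel.one : Rel (1 : Perm (ℕ → Fin k)) 1 := fun _ _ => rfl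

theorem Rel.mul {σ σ' : Perm (ℕ → Fin k)} {τ τ' : Perm (List (Fin k))} (h : Rel σ τ)
    (h' : Rel σ' τ') : Rel (σ * σ') (τ * τ') := by
  intro η m
  rw [Perm.mul_apply, h', h, Perm.mul_apply]

theorem Rel.inv {σ : Perm (ℕ → Fin k)} {τ : Perm (List (Fin k))} (h : Rel σ τ) :
    Rel σ⁻¹ τ⁻¹ := by
  intro η m
  have h1 := h (σ⁻¹ η) m
  rw [show σ (σ⁻¹ η) = η from σ.apply_symm_apply η] at h1
  rw [← h1]
  exact τ.symm_apply_apply _

theorem Rel.eq_one_iff (hk : 0 < k) {σ : Perm (ℕ → Fin k)} {τ : Perm (List (Fin k))}
    (h : Rel σ τ) : τ = 1 ↔ σ = 1 := by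
  constructor
  · rintro rfl
    ext η : 1
    apply pre_ext
    intro m
    exact (h η m).symm
  · rintro rfl
    ext w : 1
    obtain ⟨η, m, rfl⟩ := exists_pre hk w
    exact h η m

theorem rel_lift (w : FreeGroup (Fin n)) :
    Rel (FreeGroup.lift A.rP w) (FreeGroup.lift A.wP w) := by
  induction w using FreeGroup.induction_on with
  | C1 => simpa using Rel.one
  | of q => simpa using A.rel_state q
  | inv_of q ih => rw [map_inv, map_inv]; exact ih.inv
  | mul a b h1 h2 => rw [map_mul, map_mul]; exact h1.mul h2

theorem lift_eq_one_iff (hk : 0 < k) (w : FreeGroup (Fin n)) :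
    FreeGroup.lift A.wP w = 1 ↔ FreeGroup.lift A.rP w = 1 :=
  (A.rel_lift w).eq_one_iff hk

end Mealy

/-! ### Tables -/

theorem getD_mem {α : Type} (l : List α) (d : α) (x : ℕ) (h : x < l.length) : l.getD x d ∈ l := by
  rw [List.getD_eq_getElem _ _ h]
  exact List.getElem_mem _

theorem getD_inj (l : List (ℕ × ℕ)) (hl : (l.map Prod.snd).Nodup) (x y : ℕ) (hx : x < l.length)
    (hy : y < l.length) (h : (l.getD x (0, 0)).2 = (l.getD y (0, 0)).2) : x = y := by
  have hx' : x < (l.map Prod.snd).length := by rwa [List.length_map]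
  have hy' : y < (l.map Prod.snd).length := by rwa [List.length_map]
  refine (hl.getElem_inj_iff (hi := hx') (hj := hy')).1 ?_
  rw [List.getElem_map, List.getElem_map]
  rw [List.getD_eq_getElem _ _ hx, List.getD_eq_getElem _ _ hy] at h
  exact h

namespace IsAutomaton

variable {k : ℕ} {T : Table} (h : IsAutomaton k T)

include h

theorem len_row {q : ℕ} (hq : q < T.length) : (T.getD q []).length = k :=
  h.length_row _ (getD_mem _ _ _ hq)

theorem entry_mem {q x : ℕ} (hq : q < T.length) (hx : x < k) :
    (T.getD q []).getD x (0, 0) ∈ T.getD q [] :=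
  getD_mem _ _ _ (by rw [h.len_row hq]; exact hx)

theorem nxt_lt {q x : ℕ} (hq : q < T.length) (hx : x < k) : nxt T q x < T.length :=
  (h.bound _ (getD_mem _ _ _ hq) _ (h.entry_mem hq hx)).1

theorem out_lt {q x : ℕ} (hq : q < T.length) (hx : x < k) : out T q x < k :=
  (h.bound _ (getD_mem _ _ _ hq) _ (h.entry_mem hq hx)).2

theorem out_inj {q x y : ℕ} (hq : q < T.length) (hx : x < k) (hy : y < k)
    (hxy : out T q x = out T q y) : x = y := by
  have h1 := h.len_row hq
  exact getD_inj _ (h.nodup _ (getD_mem _ _ _ hq)) x y (by omega) (by omega) hxy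

end IsAutomaton

open Classical in
/-- the automaton of a table -/
noncomputable def ofTable {k : ℕ} {T : Table} (h : IsAutomaton k T) : Mealy T.length k where
  nx q x := ⟨nxt T q x, h.nxt_lt q.2 x.2⟩
  ou q := Equiv.ofBijective (fun x : Fin k => (⟨out T q x, h.out_lt q.2 x.2⟩ : Fin k))
    (Finite.injective_iff_bijective.1 (fun x y hxy => by
      apply Fin.ext
      exact h.out_inj q.2 x.2 y.2 (by simpa using hxy)))

theorem ofTable_ou {k : ℕ} {T : Table} (h : IsAutomaton k T) (q : Fin T.length) (x : Fin k) :
    (((ofTable h).ou q x : Fin k) : ℕ) = out T q x := rfl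

theorem ofTable_nx {k : ℕ} {T : Table} (h : IsAutomaton k T) (q : Fin T.length) (x : Fin k) :
    (((ofTable h).nx q x : Fin T.length) : ℕ) = nxt T q x := rfl

theorem wP_spec {k : ℕ} {T : Table} (h : IsAutomaton k T) (q : Fin T.length)
    (w : List (Fin k)) : ((ofTable h).wP q w).map Fin.val = act T q (w.map Fin.val) := by
  change ((ofTable h).f q w).map Fin.val = _
  induction w generalizing q with
  | nil => rfl
  | cons x w ih =>
    rw [Mealy.f, List.map_cons, List.map_cons, act, ih, ofTable_ou, ofTable_nx]

theorem autGroup_eq {k : ℕ} {T : Table} (h : IsAutomaton k T) :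
    autGroup k T = (FreeGroup.lift (ofTable h).wP).range := by
  unfold autGroup
  rw [FreeGroup.range_lift_eq_closure]
  congr 1
  ext σ
  constructor
  · rintro ⟨q, hq, hσ⟩
    refine ⟨⟨q, hq⟩, ?_⟩
    ext w : 1
    have h1 := wP_spec h ⟨q, hq⟩ w
    have h2 := hσ w
    exact (List.map_injective_iff.2 Fin.val_injective) (h1.trans h2.symm)
  · rintro ⟨q, rfl⟩
    exact ⟨q, q.2, wP_spec h q⟩

end Pool.Agent.V1119.ISO
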