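import Mathlib
import Pool.Agent.V1119.ISO.Mealy
import Pool.Agent.Helper599.Prim
import Pool.Agent.Helper599.Source2

/-!
# Two automata
-/

set_option autoImplicit false

namespace Pool.Agent.V1119.ISO

open Equiv Pool.Agent.Helper599 Pool.Agent.Helper599.PP Pool.Agent.Helper599.Ray
open Pool.Agent.Helper599.Mod Pool.Agent.Helper599.Core Pool.Agent.Helper599.Asm

/-! ### Descriptions -/

theorem Desc.uniq {g : Perm R} {M M' : GG} {v v' : Z4} {e e' : ZMod 2} (h : Desc g M v e)
    (h' : Desc g M' v' e') : M = M' ∧ v = v' ∧ e = e' := by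
  have h1 := h.mul h'.inv
  rw [mul_inv_cancel] at h1
  obtain ⟨h2, h3⟩ := gen_xi.eq h1 rfl
  have h4 : M = M' := mul_inv_eq_one.1 h2
  subst h4
  refine ⟨rfl, ?_, ?_⟩
  · rw [ac_neg, ← ac_mul, mul_inv_cancel, ac_one, neg_add_eq_zero] at h3
    exact h3.symm
  · have h5 := h.flip (fun _ => 16) 0 (fun j hj => by omega) (by simp)
    have h6 := h'.flip (fun _ => 16) 0 (fun j hj => by omega) (by simp)
    rw [h5] at h6
    have k : ∀ e : ZMod 2, e = 0 ∨ e = 1 := by decide
    have h4 : (1 : ZMod 2) ≠ 0 := by decide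
    have k3 : ∀ e e' : ZMod 2, fl e 16 = fl e' 16 → e = e' := by
      intro e e' h
      rcases k e with rfl | rfl <;> rcases k e' with rfl | rfl <;> simp [fl, h4] at h ⊢
    exact k3 e e' h6

theorem Desc.ext {g g' : Perm R} {M : GG} {v : Z4} {e : ZMod 2} (h : Desc g M v e)
    (h' : Desc g' M v e) : g = g' := by
  have h1 := h.mul h'.inv
  rw [mul_inv_cancel, ac_neg, ← ac_mul, mul_inv_cancel, ac_one, neg_add_cancel,
    CharTwo.add_self_eq_zero] at h1
  exact mul_inv_eq_one.1 h1.eq_one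

/-- forgetting the flips -/
theorem Desc.forget {g g' : Perm R} {M : GG} {v : Z4} {e : ZMod 2} (h : Desc g M v e)
    (hg : ∀ η i, ((g' η i : Fin 18) : ℕ) = if (η i : ℕ) < 16 then (g η i : ℕ) else η i) :
    Desc g' M v 0 where
  dig η m hη := by
    intro j hj
    rw [hg, if_pos (hη j hj)]
    exact h.dig η m hη j hj
  vl η m hη := by
    have h1 : val (g' η) m = val (g η) m := by
      apply val_congr
      intro j hj
      apply Fin.ext
      rw [hg, if_pos (hη j hj)]
    rw [h1]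
    exact h.vl η m hη
  flip η m hη hm := by
    rw [hg, if_neg (by omega)]
    simp [fl]
  rest η m hη hm j hj := by
    apply Fin.ext
    rw [hg]
    split_ifs with h1
    · rw [h.rest η m hη hm j hj]
    · rfl

/-! ### Generators indexed by the natural numbers -/

section

variable {k : ℕ} {T : Table} (h : IsAutomaton k T)

/-- permutations of the words -/
noncomputable def gW (q : ℕ) : Perm (List (Fin k)) :=
  if hq : q < T.length then (ofTable h).wP ⟨q, hq⟩ else 1

/-- permutations of the rays -/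
noncomputable def gR (q : ℕ) : Perm (ℕ → Fin k) :=
  if hq : q < T.length then (ofTable h).rP ⟨q, hq⟩ else 1

theorem rel_gens (q : ℕ) : Mealy.Rel (gR h q) (gW h q) := by
  unfold gR gW
  split_ifs with hq
  · exact (ofTable h).rel_state _
  · exact Mealy.Rel.one

theorem rel_lift (w : FreeGroup ℕ) :
    Mealy.Rel (FreeGroup.lift (gR h) w) (FreeGroup.lift (gW h) w) := by
  induction w using FreeGroup.induction_on with
  | C1 => simpa using Mealy.Rel.one
  | of q => simpa using rel_gens h q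
  | inv_of q ih => rw [map_inv, map_inv]; exact ih.inv
  | mul a b h1 h2 => rw [map_mul, map_mul]; exact h1.mul h2

theorem lift_eq_one_iff (hk : 0 < k) (w : FreeGroup ℕ) :
    FreeGroup.lift (gW h) w = 1 ↔ FreeGroup.lift (gR h) w = 1 :=
  (rel_lift h w).eq_one_iff hk

theorem autGroup_range : autGroup k T = (FreeGroup.lift (gW h)).range := by
  rw [autGroup_eq h, FreeGroup.range_lift_eq_closure, FreeGroup.range_lift_eq_closure]
  apply le_antisymm
  · rw [Subgroup.closure_le]
    rintro _ ⟨q, rfl⟩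
    refine Subgroup.subset_closure ⟨q, ?_⟩
    unfold gW
    rw [dif_pos q.2]
  · rw [Subgroup.closure_le]
    rintro _ ⟨q, rfl⟩
    unfold gW
    split_ifs with hq
    · exact Subgroup.subset_closure ⟨_, rfl⟩
    · exact one_mem _

end

/-! ### The two tables -/

section

variable {Q : Type} [Finite Q] (M : Sys Q Bool) (q0 : Q)

/-- the first table -/
noncomputable def TA (N : ℕ) : Table := (DA M q0 N).T

/-- the second table: no flips -/
noncomputable def TB (N : ℕ) : Table :=
  table (KK M q0 N) (LL M) (LL M) (i0 M) (mtN M q0 N)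

theorem len_A (N : ℕ) : (TA M q0 N).length = (DA M q0 N).n := (DA M q0 N).T_valid.1

theorem len_B (N : ℕ) : (TB M q0 N).length = (DA M q0 N).n := by
  unfold TB table
  rw [List.length_map, List.length_range]
  rfl

theorem valid_A (N : ℕ) : IsAutomaton 18 (TA M q0 N) where
  length_row row hr := ((DA M q0 N).T_valid.2 row hr).1
  nodup row hr := ((DA M q0 N).T_valid.2 row hr).2.1
  bound row hr e he := by
    rw [len_A]
    exact ((DA M q0 N).T_valid.2 row hr).2.2 e he

theorem A_nxt (N : ℕ) {s x : ℕ} (hs : s < (DA M q0 N).n) (hx : x < 18) :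
    nxt (TA M q0 N) s x = (DA M q0 N).N s x := by
  unfold nxt TA
  rw [(DA M q0 N).T_getD hs hx]

theorem A_out (N : ℕ) {s x : ℕ} (hs : s < (DA M q0 N).n) (hx : x < 18) :
    out (TA M q0 N) s x = (DA M q0 N).O s x := by
  unfold out TA
  rw [(DA M q0 N).T_getD hs hx]

/-- output without flips -/
theorem ot_B (N : ℕ) {s : ℕ} (hs : s < (DA M q0 N).n) (x : ℕ) :
    ot (KK M q0 N) (LL M) (mtN M q0 N) s x = if x < 16 then (DA M q0 N).O s x else x := by
  unfold ot Data.O ot
  have h1 : idx (KK M q0 N) s < LL M := idx_lt hs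
  split_ifs with h2 h3
  · rfl
  · omega
  · rfl

theorem B_getD (N : ℕ) {s x : ℕ} (hs : s < (DA M q0 N).n) (hx : x < 18) :
    ((TB M q0 N).getD s []).getD x (0, 0) =
      ((DA M q0 N).N s x, if x < 16 then (DA M q0 N).O s x else x) := by
  have hs' : s < LL M * KK M q0 N ^ 4 := hs
  have e1 : (TB M q0 N).getD s [] =
      List.map (fun x => (Ray.nx (KK M q0 N) (i0 M) (mtN M q0 N) s x,
        ot (KK M q0 N) (LL M) (mtN M q0 N) s x)) (List.range 18) := by
    unfold TB table
    rw [List.getD_eq_getElem _ _ (by simpa using hs'), List.getElem_map, List.getElem_range]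
  rw [e1, List.getD_eq_getElem _ _ (by simpa using hx), List.getElem_map, List.getElem_range,
    ot_B M q0 N hs]
  rfl

theorem B_nxt (N : ℕ) {s x : ℕ} (hs : s < (DA M q0 N).n) (hx : x < 18) :
    nxt (TB M q0 N) s x = (DA M q0 N).N s x := by
  unfold nxt
  rw [B_getD M q0 N hs hx]

theorem B_out (N : ℕ) {s x : ℕ} (hs : s < (DA M q0 N).n) (hx : x < 18) :
    out (TB M q0 N) s x = if x < 16 then (DA M q0 N).O s x else x := by
  unfold out
  rw [B_getD M q0 N hs hx]

theorem O_lt16 (N : ℕ) (s x : ℕ) (hx : x < 16) : (DA M q0 N).O s x < 16 := by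
  unfold Data.O ot
  rw [if_pos hx]
  exact Data.lt_lt _

theorem valid_B (N : ℕ) : IsAutomaton 18 (TB M q0 N) where
  length_row row hr := by
    unfold TB table at hr
    rw [List.mem_map] at hr
    obtain ⟨s, hs, rfl⟩ := hr
    simp
  nodup row hr := by
    unfold TB table at hr
    rw [List.mem_map] at hr
    obtain ⟨s, hs, rfl⟩ := hr
    rw [List.mem_range] at hs
    have hs : s < (DA M q0 N).n := hs
    rw [List.map_map]
    refine List.Nodup.map_on ?_ List.nodup_range
    intro x hx y hy h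
    rw [List.mem_range] at hx hy
    simp only [Function.comp_apply] at h
    rw [ot_B M q0 N hs, ot_B M q0 N hs] at h
    split_ifs at h with h1 h2 h3
    · exact (DA M q0 N).O_inj hs hx hy h
    · have := O_lt16 M q0 N s x h1
      omega
    · have := O_lt16 M q0 N s y h3
      omega
    · exact h
  bound row hr e he := by
    rw [len_B]
    unfold TB table at hr
    rw [List.mem_map] at hr
    obtain ⟨s, hs, rfl⟩ := hr
    rw [List.mem_range] at hs
    have hs : s < (DA M q0 N).n := hs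
    rw [List.mem_map] at he
    obtain ⟨x, hx, rfl⟩ := he
    rw [List.mem_range] at hx
    refine ⟨(DA M q0 N).N_lt hs x, ?_⟩
    change ot (KK M q0 N) (LL M) (mtN M q0 N) s x < 18
    rw [ot_B M q0 N hs]
    split_ifs with h1
    · have := O_lt16 M q0 N s x h1
      omega
    · exact hx

theorem st_A (N : ℕ) (q : Fin (TA M q0 N).length) (η : R) (i : ℕ) :
    (((ofTable (valid_A M q0 N)).st q η i : Fin _) : ℕ) = (DA M q0 N).stt q η i := by
  induction i with
  | zero => rfl
  | succ i ih =>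
    rw [Mealy.st, ofTable_nx, A_nxt M q0 N _ (η i).2, ih, Data.stt]
    rw [← len_A]
    exact Fin.isLt _

theorem st_B (N : ℕ) (q : Fin (TB M q0 N).length) (η : R) (i : ℕ) :
    (((ofTable (valid_B M q0 N)).st q η i : Fin _) : ℕ) = (DA M q0 N).stt q η i := by
  induction i with
  | zero => rfl
  | succ i ih =>
    rw [Mealy.st, ofTable_nx, B_nxt M q0 N _ (η i).2, ih, Data.stt]
    rw [← len_B M q0]
    exact Fin.isLt _

theorem is_A (N : ℕ) (q : Fin (TA M q0 N).length) :
    (DA M q0 N).Is q ((ofTable (valid_A M q0 N)).rP q) := by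
  intro η i
  rw [Mealy.rP_apply, ofTable_ou, A_out M q0 N _ (η i).2, st_A]
  rw [← len_A]
  exact Fin.isLt _

theorem is_B (N : ℕ) (q : ℕ) (hA : q < (TA M q0 N).length) (hB : q < (TB M q0 N).length)
    (η : R) (i : ℕ) :
    (((ofTable (valid_B M q0 N)).rP ⟨q, hB⟩ η i : Fin 18) : ℕ) =
      if (η i : ℕ) < 16 then (((ofTable (valid_A M q0 N)).rP ⟨q, hA⟩ η i : Fin 18) : ℕ)
      else η i := by
  have h1 := is_A M q0 N ⟨q, hA⟩ η i
  rw [h1, Mealy.rP_apply, ofTable_ou, B_out M q0 N _ (η i).2, st_B]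
  rw [← len_B M q0]
  exact Fin.isLt _

/-! ### Descriptions of the elements -/

/-- name of a state -/
noncomputable def nm (N : ℕ) (q : ℕ) : FreeGroup (Nm Q M.B) :=
  if h : q < (DA M q0 N).n then
    FreeGroup.of ((eN M).symm ⟨idx (DA M q0 N).K q, idx_lt (L := LL M) h⟩)
  else 1

/-- the name of a word of states -/
noncomputable def jj (N : ℕ) : FreeGroup ℕ →* FreeGroup (Nm Q M.B) := FreeGroup.lift (nm M q0 N)

/-- elements of the first group -/
noncomputable def RA (N : ℕ) : FreeGroup ℕ →* Perm R := FreeGroup.lift (gR (valid_A M q0 N))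

/-- elements of the second group -/
noncomputable def RB (N : ℕ) : FreeGroup ℕ →* Perm R := FreeGroup.lift (gR (valid_B M q0 N))

theorem desc_gen (N q : ℕ) (hq : q < (DA M q0 N).n) :
    Desc (RA M q0 N (FreeGroup.of q)) (Asm.RR M q0 N (nm M q0 N q))
      (tz (vec (DA M q0 N).K q)) (Multiplicative.toAdd (wt M (nm M q0 N q))) ∧
    Desc (RB M q0 N (FreeGroup.of q)) (Asm.RR M q0 N (nm M q0 N q))
      (tz (vec (DA M q0 N).K q)) 0 := by
  have hA : q < (TA M q0 N).length := by rw [len_A]; exact hq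
  have hB : q < (TB M q0 N).length := by rw [len_B]; exact hq
  have eA : RA M q0 N (FreeGroup.of q) = (ofTable (valid_A M q0 N)).rP ⟨q, hA⟩ := by
    unfold RA gR
    rw [FreeGroup.lift_apply_of, dif_pos hA]
  have eB : RB M q0 N (FreeGroup.of q) = (ofTable (valid_B M q0 N)).rP ⟨q, hB⟩ := by
    unfold RB gR
    rw [FreeGroup.lift_apply_of, dif_pos hB]
  have h1 := code_idx_vec (DA M q0 N).K q
  have h2 : idx (DA M q0 N).K q < (DA M q0 N).L := idx_lt hq
  have hK := (DA M q0 N).hK
  have hσ : (DA M q0 N).Is (code (DA M q0 N).K (idx (DA M q0 N).K q) (vec (DA M q0 N).K q))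
      ((ofTable (valid_A M q0 N)).rP ⟨q, hA⟩) := by
    rw [h1]
    exact is_A M q0 N ⟨q, hA⟩
  have h3 := (DA M q0 N).desc h2 (bd_vec (by omega) q) hσ
  have h4 : (eN M ((eN M).symm ⟨idx (DA M q0 N).K q, h2⟩) : ℕ) = idx (DA M q0 N).K q := by simp
  have h6 : nm M q0 N q = FreeGroup.of ((eN M).symm ⟨idx (DA M q0 N).K q, h2⟩) := by
    unfold nm
    rw [dif_pos hq]
  rw [← h4, MM_eN, wi_eN, ← h6] at h3
  have h5 : Multiplicative.toAdd (wt M (nm M q0 N q)) =
      wn M ((eN M).symm ⟨idx (DA M q0 N).K q, h2⟩) := by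
    rw [h6]
    simp [wt]
  rw [eA, eB, h5]
  exact ⟨h3, Desc.forget h3 (is_B M q0 N q hA hB)⟩

theorem exists_desc' (N : ℕ) (w : FreeGroup ℕ) : ∃ v,
    Desc (RA M q0 N w) (Asm.RR M q0 N (jj M q0 N w)) v
      (Multiplicative.toAdd (wt M (jj M q0 N w))) ∧
    Desc (RB M q0 N w) (Asm.RR M q0 N (jj M q0 N w)) v 0 := by
  induction w using FreeGroup.induction_on with
  | C1 => exact ⟨0, by simpa using Desc.one, by simpa using Desc.one⟩
  | of q =>
    by_cases hq : q < (DA M q0 N).n
    · refine ⟨tz (vec (DA M q0 N).K q), ?_⟩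
      have h := desc_gen M q0 N q hq
      have e : jj M q0 N (FreeGroup.of q) = nm M q0 N q := by
        unfold jj; rw [FreeGroup.lift_apply_of]
      rw [e]
      exact h
    · have hA : ¬ q < (TA M q0 N).length := by rw [len_A]; exact hq
      have hB : ¬ q < (TB M q0 N).length := by rw [len_B]; exact hq
      have e : jj M q0 N (FreeGroup.of q) = 1 := by
        unfold jj nm; rw [FreeGroup.lift_apply_of, dif_neg hq]
      have eA : RA M q0 N (FreeGroup.of q) = 1 := by
        unfold RA gR; rw [FreeGroup.lift_apply_of, dif_neg hA]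
      have eB : RB M q0 N (FreeGroup.of q) = 1 := by
        unfold RB gR; rw [FreeGroup.lift_apply_of, dif_neg hB]
      rw [e, eA, eB]
      exact ⟨0, by simpa using Desc.one, by simpa using Desc.one⟩
  | inv_of q ih =>
    obtain ⟨v, h1, h2⟩ := ih
    refine ⟨- ac (Asm.RR M q0 N (jj M q0 N (FreeGroup.of q)))⁻¹ v, ?_, ?_⟩
    · have h3 := h1.inv
      have h4 : - Multiplicative.toAdd (wt M (jj M q0 N (FreeGroup.of q))) =
        Multiplicative.toAdd (wt M (jj M q0 N (FreeGroup.of q))) := ZMod.neg_eq_self_mod_two _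
      rw [map_inv, map_inv, map_inv, map_inv, toAdd_inv, h4]
      exact h3
    · rw [map_inv, map_inv, map_inv]
      exact h2.inv
  | mul a b h1 h2 =>
    obtain ⟨v, h1, h1'⟩ := h1
    obtain ⟨v', h2, h2'⟩ := h2
    refine ⟨ac (Asm.RR M q0 N (jj M q0 N a)) v' + v, ?_, ?_⟩
    · rw [map_mul, map_mul, map_mul, map_mul, toAdd_mul]
      exact h1.mul h2
    · rw [map_mul, map_mul, map_mul]
      have h3 := h1'.mul h2'
      rw [add_zero] at h3
      exact h3

/-- words of states with zero vectors -/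
noncomputable def sec (N : ℕ) : FreeGroup (Nm Q M.B) →* FreeGroup ℕ :=
  FreeGroup.lift (fun a => FreeGroup.of (code (DA M q0 N).K (eN M a) ((0, 0), (0, 0))))

theorem nm_code (N : ℕ) (a : Nm Q M.B) (v : NM) (hv : Bd (DA M q0 N).K v) :
    code (DA M q0 N).K (eN M a) v < (DA M q0 N).n ∧
    nm M q0 N (code (DA M q0 N).K (eN M a) v) = FreeGroup.of a := by
  have hq : code (DA M q0 N).K (eN M a) v < (DA M q0 N).n := code_lt hv (eN M a).2
  refine ⟨hq, ?_⟩
  unfold nm
  rw [dif_pos hq]
  congr 1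
  rw [Equiv.symm_apply_eq]
  apply Fin.ext
  exact idx_code hv

theorem desc_code (N : ℕ) (a : Nm Q M.B) (v : NM) (hv : Bd (DA M q0 N).K v) :
    Desc (RA M q0 N (FreeGroup.of (code (DA M q0 N).K (eN M a) v)))
      (Asm.RR M q0 N (FreeGroup.of a)) (tz v)
      (Multiplicative.toAdd (wt M (FreeGroup.of a))) ∧
    Desc (RB M q0 N (FreeGroup.of (code (DA M q0 N).K (eN M a) v)))
      (Asm.RR M q0 N (FreeGroup.of a)) (tz v) 0 := by
  obtain ⟨hq, h1⟩ := nm_code M q0 N a v hv
  have h2 := desc_gen M q0 N _ hq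
  rw [h1, vec_code hv] at h2
  exact h2

theorem desc_sec (N : ℕ) (u : FreeGroup (Nm Q M.B)) :
    Desc (RA M q0 N (sec M q0 N u)) (Asm.RR M q0 N u) 0 (Multiplicative.toAdd (wt M u)) ∧
    Desc (RB M q0 N (sec M q0 N u)) (Asm.RR M q0 N u) 0 0 := by
  have h0 : tz ((0, 0), (0, 0)) = 0 := rfl
  induction u using FreeGroup.induction_on with
  | C1 => exact ⟨by simpa using Desc.one, by simpa using Desc.one⟩
  | of a =>
    have h := desc_code M q0 N a ((0, 0), (0, 0)) (DA M q0 N).bd_zero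
    rw [h0] at h
    have e : sec M q0 N (FreeGroup.of a) =
        FreeGroup.of (code (DA M q0 N).K (eN M a) ((0, 0), (0, 0))) := by
      unfold sec; rw [FreeGroup.lift_apply_of]
    rw [e]
    exact h
  | inv_of a ih =>
    obtain ⟨h1, h2⟩ := ih
    refine ⟨?_, ?_⟩
    · have h3 := h1.inv
      have h4 : - Multiplicative.toAdd (wt M (FreeGroup.of a)) =
        Multiplicative.toAdd (wt M (FreeGroup.of a)) := ZMod.neg_eq_self_mod_two _
      rw [ac_zero, neg_zero] at h3
      rw [map_inv, map_inv, map_inv, map_inv, toAdd_inv, h4]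
      exact h3
    · have h3 := h2.inv
      rw [ac_zero, neg_zero] at h3
      rw [map_inv, map_inv, map_inv]
      exact h3
  | mul a b h1 h2 =>
    obtain ⟨h1, h1'⟩ := h1
    obtain ⟨h2, h2'⟩ := h2
    refine ⟨?_, ?_⟩
    · have h3 := h1.mul h2
      rw [ac_zero, add_zero] at h3
      rw [map_mul, map_mul, map_mul, map_mul, toAdd_mul]
      exact h3
    · have h3 := h1'.mul h2'
      rw [ac_zero, add_zero, add_zero] at h3
      rw [map_mul, map_mul, map_mul]
      exact h3

/-- a central element in the first group -/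
theorem center_A (N : ℕ) (hr : Reach M (some q0, fun j => (Source.ini N j : ℤ))) :
    ∃ z : FreeGroup ℕ, RA M q0 N z ≠ 1 ∧ ∀ w, RA M q0 N (z * w) = RA M q0 N (w * z) := by
  obtain ⟨u, h1, h2, h3⟩ := exists_of_reach M q0 N hr
  have h4 := (desc_sec M q0 N u).1
  have h5 : Asm.RR M q0 N u = 1 := by simp [Asm.RR, h1, h2]
  rw [h5, h3, toAdd_ofAdd] at h4
  refine ⟨sec M q0 N u, ?_, ?_⟩
  · intro h6
    rw [h6] at h4
    have h7 := (Desc.uniq h4 Desc.one).2.2
    exact absurd h7 (by decide)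
  · intro w
    obtain ⟨v, h6, _⟩ := exists_desc' M q0 N w
    have h7 := h4.mul h6
    have h8 := h6.mul h4
    rw [one_mul, ac_one, add_zero, add_comm] at h7
    rw [mul_one, ac_zero, zero_add] at h8
    rw [map_mul, map_mul]
    exact Desc.ext h7 h8

theorem au_fix (c : ℕ) (hc : 2 ≤ c) (p : ℤ × ℤ) (h : Au c p = p) : p = 0 := by
  obtain ⟨a, b⟩ := p
  rw [Au_apply] at h
  simp only [Prod.mk.injEq] at h
  obtain ⟨h1, h2⟩ := h
  have hc' : (2 : ℤ) ≤ c := by exact_mod_cast hc
  have h3 : a = -((c : ℤ) - 1) * b := by linarith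
  rw [h3] at h1
  have h4 : 2 * ((c : ℤ) - 1) * b = 0 := by linear_combination h1
  have hb : b = 0 := by
    rcases mul_eq_zero.1 h4 with h5 | h5
    · rcases mul_eq_zero.1 h5 with h6 | h6
      · exact absurd h6 (by norm_num)
      · omega
    · exact h5
  rw [hb] at h3
  rw [hb, h3]
  simp

/-- the second group has trivial center -/
theorem center_B (N : ℕ) (z : FreeGroup ℕ)
    (hz : ∀ w, RB M q0 N (z * w) = RB M q0 N (w * z)) : RB M q0 N z = 1 := by
  obtain ⟨v, _, h1⟩ := exists_desc' M q0 N z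
  have hK := (DA M q0 N).hK
  -- translations
  have ht : ∀ e : NM, Bd (DA M q0 N).K e →
      ac (Asm.RR M q0 N (jj M q0 N z)) (tz e) = tz e := by
    intro e he
    obtain ⟨_, h2⟩ := desc_code M q0 N .id e he
    have h3 : Asm.RR M q0 N (FreeGroup.of .id) = 1 := by
      simp [Asm.RR, f1, f2, pr, vl]
    rw [h3] at h2
    have h4 := h1.mul h2
    have h5 := h2.mul h1
    have h6 := hz (FreeGroup.of (code (DA M q0 N).K (eN M .id) e))
    rw [map_mul, map_mul] at h6
    rw [h6] at h4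
    have h7 := (Desc.uniq h4 h5).2.1
    rw [ac_one, add_comm v] at h7
    exact add_right_cancel h7
  have hM : Asm.RR M q0 N (jj M q0 N z) = 1 := by
    set L := Asm.RR M q0 N (jj M q0 N z) with hL
    have e1 := ht ((1, 0), (0, 0)) (by simp only [Bd]; omega)
    have e2 := ht ((0, 1), (0, 0)) (by simp only [Bd]; omega)
    have e3 := ht ((0, 0), (1, 0)) (by simp only [Bd]; omega)
    have e4 := ht ((0, 0), (0, 1)) (by simp only [Bd]; omega)
    have t1 : tz ((1, 0), (0, 0)) = ((1, 0), (0, 0)) := rfl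
    have t2 : tz ((0, 1), (0, 0)) = ((0, 1), (0, 0)) := rfl
    have t3 : tz ((0, 0), (1, 0)) = ((0, 0), (1, 0)) := rfl
    have t4 : tz ((0, 0), (0, 1)) = ((0, 0), (0, 1)) := rfl
    rw [t1] at e1
    rw [t2] at e2
    rw [t3] at e3
    rw [t4] at e4
    refine Prod.ext ?_ ?_
    · apply LinearEquiv.ext
      rintro ⟨a, b⟩
      have k1 : L.1 (1, 0) = (1, 0) := congrArg Prod.fst e1
      have k2 : L.1 (0, 1) = (0, 1) := congrArg Prod.fst e2
      have k3 : ((a, b) : ℤ × ℤ) = a • (1, 0) + b • (0, 1) := by simp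
      rw [k3, map_add, map_smul, map_smul, k1, k2]
      rfl
    · apply LinearEquiv.ext
      rintro ⟨a, b⟩
      have k1 : L.2 (1, 0) = (1, 0) := congrArg Prod.snd e3
      have k2 : L.2 (0, 1) = (0, 1) := congrArg Prod.snd e4
      have k3 : ((a, b) : ℤ × ℤ) = a • (1, 0) + b • (0, 1) := by simp
      rw [k3, map_add, map_smul, map_smul, k1, k2]
      rfl
  rw [hM] at h1
  -- a hyperbolic element
  obtain ⟨_, h2⟩ := desc_sec M q0 N (FreeGroup.of (.gn .k))
  have h3 : Asm.RR M q0 N (FreeGroup.of (.gn .k)) =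
      (Au (co M .k), Au (co M .k)) := by
    simp [Asm.RR, f1, f2, pr, vl, rep]
  rw [h3] at h2
  have h4 := h1.mul h2
  have h5 := h2.mul h1
  have h6 := hz (sec M q0 N (FreeGroup.of (.gn .k)))
  rw [map_mul, map_mul] at h6
  rw [h6] at h4
  have h7 := (Desc.uniq h4 h5).2.1
  rw [ac_zero, zero_add, add_zero] at h7
  have hc : 2 ≤ co M (.k : Gn Q M.B) := by unfold co cst; omega
  have k1 : v.1 = 0 := au_fix _ hc _ (congrArg Prod.fst h7).symm
  have k2 : v.2 = 0 := au_fix _ hc _ (congrArg Prod.snd h7).symm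
  have k3 : v = 0 := Prod.ext k1 k2
  rw [k3] at h1
  exact h1.eq_one

/-- the same relations -/
theorem same_ker (hab : ∀ q r, M.nxt q r ≠ none → ∀ j, M.b q r j < M.a q r j) (N : ℕ)
    (hr : ¬ Reach M (some q0, fun j => (Source.ini N j : ℤ))) (w : FreeGroup ℕ) :
    RA M q0 N w = 1 ↔ RB M q0 N w = 1 := by
  obtain ⟨v, h1, h2⟩ := exists_desc' M q0 N w
  constructor
  · intro h
    rw [h] at h1
    obtain ⟨h3, h4, _⟩ := Desc.uniq h1 Desc.one
    rw [h3, h4] at h2
    exact h2.eq_one
  · intro h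
    rw [h] at h2
    obtain ⟨h3, h4, _⟩ := Desc.uniq h2 Desc.one
    have h5 : f1 M q0 N (jj M q0 N w) = 1 := rep_injective M (by
      rw [map_one]
      exact congrArg Prod.fst h3)
    have h6 : f2 M q0 N (jj M q0 N w) = 1 := rep_injective M (by
      rw [map_one]
      exact congrArg Prod.snd h3)
    have h7 := wt_eq_one M hab q0 N hr _ h5 h6
    rw [h3, h4, h7] at h1
    exact h1.eq_one

section abstract_nonsense

variable {F G₁ G₂ P₁ P₂ : Type} [Group F] [Group G₁] [Group G₂] [Group P₁] [Group P₂]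

theorem not_iso (f : F →* G₁) (g : F →* G₂) (a : F →* P₁) (b : F →* P₂)
    (kA : ∀ w, f w = 1 ↔ a w = 1) (kB : ∀ w, g w = 1 ↔ b w = 1)
    (z : F) (hz1 : a z ≠ 1) (hz2 : ∀ w, a (z * w) = a (w * z))
    (hc : ∀ y, (∀ w, b (y * w) = b (w * y)) → b y = 1) (φ : f.range ≃* g.range) : False := by
  have hcA : ∀ w, f z * f w = f w * f z := by
    intro w
    have h1 : f ((z * w)⁻¹ * (w * z)) = 1 := by
      rw [kA, map_mul, map_inv, inv_mul_eq_one]
      exact hz2 w
    rw [map_mul, map_inv, inv_mul_eq_one, map_mul, map_mul] at h1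
    exact h1
  have hzA : f z ≠ 1 := fun h => hz1 ((kA z).1 h)
  obtain ⟨y, hy⟩ := (φ ⟨f z, z, rfl⟩).2
  have hcB : ∀ w, g y * g w = g w * g y := by
    intro w
    obtain ⟨⟨x, w', hx⟩, hw'⟩ := φ.surjective ⟨g w, w, rfl⟩
    subst hx
    have e0 : (⟨f z, z, rfl⟩ : f.range) * ⟨f w', w', rfl⟩ = ⟨f w', w', rfl⟩ * ⟨f z, z, rfl⟩ :=
      Subtype.ext (hcA w')
    have e1 := congrArg φ e0
    rw [map_mul, map_mul, hw'] at e1
    have e2 := congrArg Subtype.val e1
    rw [Subgroup.coe_mul, Subgroup.coe_mul, ← hy] at e2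
    exact e2
  have h1 : b y = 1 := by
    apply hc
    intro w
    have h2 : g ((y * w)⁻¹ * (w * y)) = 1 := by
      rw [map_mul, map_inv, inv_mul_eq_one, map_mul, map_mul]
      exact hcB w
    rw [kB, map_mul, map_inv, inv_mul_eq_one] at h2
    exact h2
  have h2 : g y = 1 := (kB y).2 h1
  have h3 : φ ⟨f z, z, rfl⟩ = 1 := Subtype.ext (hy.symm.trans h2)
  have h4 : (⟨f z, z, rfl⟩ : f.range) = 1 := by
    apply φ.injective
    rw [h3, map_one]
  exact hzA (congrArg Subtype.val h4)

theorem iso_of (f : F →* G₁) (g : F →* G₂) (h : ∀ w, f w = 1 ↔ g w = 1) :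
    Nonempty (f.range ≃* g.range) := by
  have hker : f.ker = g.ker := by
    ext w
    rw [MonoidHom.mem_ker, MonoidHom.mem_ker]
    exact h w
  exact ⟨(QuotientGroup.quotientKerEquivRange f).symm.trans
    ((QuotientGroup.quotientMulEquivOfEq hker).trans (QuotientGroup.quotientKerEquivRange g))⟩

end abstract_nonsense

/-- The two groups are isomorphic if and only if the machine does not reach the final
configuration. -/
theorem iso_iff (hab : ∀ q r, M.nxt q r ≠ none → ∀ j, M.b q r j < M.a q r j) (N : ℕ) :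
    Nonempty (autGroup 18 (TA M q0 N) ≃* autGroup 18 (TB M q0 N)) ↔
      ¬ Reach M (some q0, fun j => (Source.ini N j : ℤ)) := by
  have hA := valid_A M q0 N
  have hB := valid_B M q0 N
  have kA : ∀ w, FreeGroup.lift (gW hA) w = 1 ↔ RA M q0 N w = 1 :=
    fun w => lift_eq_one_iff hA (by norm_num) w
  have kB : ∀ w, FreeGroup.lift (gW hB) w = 1 ↔ RB M q0 N w = 1 :=
    fun w => lift_eq_one_iff hB (by norm_num) w
  rw [autGroup_range hA, autGroup_range hB]
  constructor
  · rintro ⟨φ⟩ hr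
    obtain ⟨z, hz1, hz2⟩ := center_A M q0 N hr
    exact not_iso _ _ (RA M q0 N) (RB M q0 N) kA kB z hz1 hz2 (center_B M q0 N) φ
  · intro hr
    apply iso_of
    intro w
    rw [kA, kB]
    exact same_ker M q0 hab N hr w

/-! ### Computability -/

theorem p_otB : Primrec (fun p : ℕ × ℕ × ℕ =>
    ot (KK M q0 p.1) (LL M) (mtN M q0 p.1) p.2.1 p.2.2) := by
  have hK : Primrec (fun p : ℕ × ℕ × ℕ => KK M q0 p.1) := (p_KK M q0).comp Primrec.fst
  have hs : Primrec (fun p : ℕ × ℕ × ℕ => p.2.1) := Primrec.fst.comp Primrec.snd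
  have hx : Primrec (fun p : ℕ × ℕ × ℕ => p.2.2) := Primrec.snd.comp Primrec.snd
  have hi := p_idx hK hs
  have hm : Primrec (fun p : ℕ × ℕ × ℕ => mtN M q0 p.1 (idx (KK M q0 p.1) p.2.1)) :=
    (p_mtN M q0).comp (Primrec.pair Primrec.fst hi)
  unfold ot
  refine Primrec.ite (Primrec.nat_lt.comp hx (Primrec.const 16)) ?_ ?_
  · exact p_lt (p_nv hm (p_dg hx) (p_vec hK hs))
  · refine Primrec.ite (Primrec.eq.comp hi (Primrec.const _)) ?_ hx
    exact Primrec.nat_sub.comp (Primrec.const 33) hx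

/-- a row entry -/
noncomputable def entB (p : (ℕ × ℕ) × ℕ) : ℕ × ℕ :=
  (Ray.nx (KK M q0 p.1.1) (i0 M) (mtN M q0 p.1.1) p.1.2 p.2,
    ot (KK M q0 p.1.1) (LL M) (mtN M q0 p.1.1) p.1.2 p.2)

theorem p_entB : Primrec (entB M q0) := by
  have hp : Primrec (fun p : (ℕ × ℕ) × ℕ => (p.1.1, p.1.2, p.2)) :=
    Primrec.pair (Primrec.fst.comp Primrec.fst) (Primrec.pair (Primrec.snd.comp Primrec.fst)
      Primrec.snd)
  have h1 := (p_nx M q0).comp hp
  have h2 := (p_otB M q0).comp hp
  simp only at h1 h2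
  have h3 := Primrec.pair h1 h2
  exact h3

/-- a row -/
noncomputable def rwB (k : ℕ) (p : ℕ × ℕ) : List (ℕ × ℕ) :=
  (List.range k).map (fun x => entB M q0 (p, x))

theorem p_rwB (k : ℕ) : Primrec (rwB M q0 k) := by
  have h1 : Primrec₂ (fun (p : ℕ × ℕ) (x : ℕ) => entB M q0 (p, x)) :=
    ((p_entB M q0).comp (Primrec.pair Primrec.fst Primrec.snd)).to₂
  exact Primrec.list_map (Primrec.const _) h1

theorem TB_eq (N : ℕ) : TB M q0 N =
    (List.range (DA M q0 N).n).map (fun s => rwB M q0 18 (N, s)) := by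
  have e2 : (DA M q0 N).n = LL M * KK M q0 N ^ 4 := rfl
  rw [e2, TB, table]
  rfl

theorem p_TB : Primrec (TB M q0) := by
  refine Primrec.of_eq ?_ (fun N => (TB_eq M q0 N).symm)
  have h1 : Primrec₂ (fun (N : ℕ) (s : ℕ) => rwB M q0 18 (N, s)) :=
    ((p_rwB M q0 18).comp (Primrec.pair Primrec.fst Primrec.snd)).to₂
  exact Primrec.list_map (Primrec.list_range.comp (p_n M q0)) h1

theorem p_TA : Primrec (TA M q0) := p_T M q0

end

/-- There are computable families of automata over 18 letters for which it is undecidable whether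
the groups are isomorphic. -/
theorem exists_family : ∃ A B : ℕ → Table, Computable A ∧ Computable B ∧
    (∀ n, IsAutomaton 18 (A n) ∧ IsAutomaton 18 (B n)) ∧
    ¬ ComputablePred (fun n => Nonempty (autGroup 18 (A n) ≃* autGroup 18 (B n))) := by
  obtain ⟨Q, hQ, M, q0, N, hB, hab, hN, hnc⟩ := Source.exists_sys2
  refine ⟨fun n => TA M q0 (N n), fun n => TB M q0 (N n), (p_TA M q0).to_comp.comp hN,
    (p_TB M q0).to_comp.comp hN, fun n => ⟨valid_A M q0 _, valid_B M q0 _⟩, fun h => hnc ?_⟩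
  refine (ComputablePred.not h).of_eq fun n => ?_
  rw [iso_iff M q0 hab, not_not, Mod.halts_iff_reach M hB]

end Pool.Agent.V1119.ISO
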